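import Mathlib
import Pool.Agent.N254.SQ.Stm

/-!
Project SQ (helper254), leaf CIRC (helper136): in a minimal vanishing sum all indices are connected by
circuits.
-/

set_option autoImplicit false

namespace Pool.Agent.L5helper62.SK

variable {𝕜 : Type} [Field 𝕜]

open Classical in
/-- the support of a vector -/
noncomputable def circ_supp {ι : Type} [Fintype ι] (a : ι → 𝕜) : Finset ι :=
  Finset.univ.filter fun i => a i ≠ 0

theorem circ_mem {ι : Type} [Fintype ι] {a : ι → 𝕜} {i : ι} : i ∈ circ_supp a ↔ a i ≠ 0 := by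
  unfold circ_supp
  simp

/-- if `b` has its support in the support of `a`, subtracting the right multiple makes it smaller -/
theorem circ_lt {ι : Type} [Fintype ι] {a a' : ι → 𝕜} {i : ι} (hi : a' i ≠ 0) (hia : a i ≠ 0)
    (h : circ_supp a' ⊆ circ_supp a) :
    (circ_supp (a - (a i / a' i) • a')).card < (circ_supp a).card := by
  apply Finset.card_lt_card
  rw [Finset.ssubset_iff_of_subset]
  · refine ⟨i, circ_mem.2 hia, ?_⟩
    rw [circ_mem]
    simp only [Pi.sub_apply, Pi.smul_apply, smul_eq_mul, ne_eq, not_not]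
    field_simp
    ring
  · intro j hj
    rw [circ_mem] at hj ⊢
    intro h0
    have h1 : a' j = 0 := by
      by_contra h2
      exact circ_mem.1 (h (circ_mem.2 h2)) h0
    apply hj
    simp [h0, h1]

theorem circ_rel {V : Type} [AddCommGroup V] [Module 𝕜 V] {ι : Type} [Fintype ι] {u : ι → V}
    {a b : ι → 𝕜} (c : 𝕜) (ha : ∑ i, a i • u i = 0) (hb : ∑ i, b i • u i = 0) :
    ∑ i, (a - c • b) i • u i = 0 := by
  simp only [Pi.sub_apply, Pi.smul_apply, smul_eq_mul, sub_smul, mul_smul]
  rw [Finset.sum_sub_distrib, ← Finset.smul_sum, ha, hb]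
  simp

open Classical in
/-- below every nonzero relation there is a circuit -/
theorem circ_exists {V : Type} [AddCommGroup V] [Module 𝕜 V] {ι : Type} [Fintype ι] (u : ι → V)
    (a : ι → 𝕜) (ha0 : a ≠ 0) (ha : ∑ i, a i • u i = 0) :
    ∃ a' : ι → 𝕜, a' ≠ 0 ∧ ∑ i, a' i • u i = 0 ∧ circ_supp a' ⊆ circ_supp a ∧
      ∀ b : ι → 𝕜, (∀ i, a' i = 0 → b i = 0) → ∑ i, b i • u i = 0 → ∃ c : 𝕜, b = c • a' := by
  have hex : ∃ n : ℕ, ∃ a' : ι → 𝕜, a' ≠ 0 ∧ ∑ i, a' i • u i = 0 ∧ circ_supp a' ⊆ circ_supp a ∧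
      (circ_supp a').card = n := ⟨_, a, ha0, ha, subset_rfl, rfl⟩
  obtain ⟨a', h1, h2, h3, h4⟩ := Nat.find_spec hex
  refine ⟨a', h1, h2, h3, ?_⟩
  intro b hb hbr
  obtain ⟨i, hi⟩ : ∃ i, a' i ≠ 0 := by
    by_contra h5
    push Not at h5
    exact h1 (funext h5)
  refine ⟨b i / a' i, ?_⟩
  by_contra hne
  have h5 : b - (b i / a' i) • a' ≠ 0 := fun h => hne (sub_eq_zero.1 h)
  have h6 : circ_supp (b - (b i / a' i) • a') ⊆ circ_supp a' := by
    intro j hj
    rw [circ_mem] at hj ⊢
    intro h0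
    apply hj
    simp [h0, hb j h0]
  have h7 : (circ_supp (b - (b i / a' i) • a')).card < (circ_supp a').card := by
    apply Finset.card_lt_card
    rw [Finset.ssubset_iff_of_subset h6]
    refine ⟨i, circ_mem.2 hi, ?_⟩
    rw [circ_mem]
    simp only [Pi.sub_apply, Pi.smul_apply, smul_eq_mul, ne_eq, not_not]
    field_simp
    ring
  rw [h4] at h7
  exact Nat.find_min hex h7 ⟨_, h5, circ_rel _ hbr h2, h6.trans h3, rfl⟩

open Classical in
theorem t_circ (V : Type) [AddCommGroup V] [Module 𝕜 V] (ι : Type) [Fintype ι] (u : ι → V)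
    (hu : ∑ i, u i = 0) (hmin : ∀ B : Finset ι, B.Nonempty → B ≠ Finset.univ → ∑ i ∈ B, u i ≠ 0)
    (R : ι → ι → Prop) (hR : Equivalence R)
    (hcon : ∀ a : ι → 𝕜, a ≠ 0 → ∑ i, a i • u i = 0 →
      (∀ b : ι → 𝕜, (∀ i, a i = 0 → b i = 0) → ∑ i, b i • u i = 0 → ∃ c : 𝕜, b = c • a) →
      ∀ i j, a i ≠ 0 → a j ≠ 0 → R i j) (i₀ j₀ : ι) : R i₀ j₀ := by
  set E : Finset ι := Finset.univ.filter fun i => R i₀ i with hE
  have key : ∀ n : ℕ, ∀ a : ι → 𝕜, (circ_supp a).card ≤ n → ∑ i, a i • u i = 0 →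
      ∑ i ∈ E, a i • u i = 0 := by
    intro n
    induction n with
    | zero =>
      intro a h0 _
      have h1 : ∀ i, a i = 0 := by
        intro i
        by_contra h2
        have h3 := circ_mem.2 h2
        rw [Finset.card_eq_zero.1 (Nat.le_zero.1 h0)] at h3
        simp at h3
      exact Finset.sum_eq_zero fun i _ => by rw [h1, zero_smul]
    | succ n ih =>
      intro a hn ha
      by_cases ha0 : a = 0
      · rw [ha0]
        simp
      obtain ⟨a', h1, h2, h3, h4⟩ := circ_exists u a ha0 ha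
      obtain ⟨i, hi⟩ : ∃ i, a' i ≠ 0 := by
        by_contra h5
        push Not at h5
        exact h1 (funext h5)
      have hia : a i ≠ 0 := circ_mem.1 (h3 (circ_mem.2 hi))
      have h5 := circ_lt hi hia h3
      have h6 := ih (a - (a i / a' i) • a') (by omega) (circ_rel _ ha h2)
      have hc := hcon a' h1 h2 h4
      -- the restriction of the circuit
      have h7 : ∑ j ∈ E, a' j • u j = 0 := by
        by_cases hiE : R i₀ i
        · rw [← h2]
          apply Finset.sum_subset (Finset.subset_univ _)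
          intro j _ hj
          by_cases hj0 : a' j = 0
          · rw [hj0, zero_smul]
          · exfalso
            apply hj
            rw [hE, Finset.mem_filter]
            exact ⟨Finset.mem_univ _, hR.trans hiE (hc i j hi hj0)⟩
        · apply Finset.sum_eq_zero
          intro j hj
          rw [hE, Finset.mem_filter] at hj
          by_cases hj0 : a' j = 0
          · rw [hj0, zero_smul]
          · exact absurd (hR.trans hj.2 (hc j i hj0 hi)) hiE
      have h8 : ∀ j, a j • u j = (a - (a i / a' i) • a') j • u j + (a i / a' i) • (a' j • u j) := by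
        intro j
        simp only [Pi.sub_apply, Pi.smul_apply, smul_eq_mul, sub_smul, mul_smul]
        abel
      calc ∑ j ∈ E, a j • u j
          = ∑ j ∈ E, (a - (a i / a' i) • a') j • u j + (a i / a' i) • ∑ j ∈ E, a' j • u j := by
            rw [Finset.smul_sum, ← Finset.sum_add_distrib]
            exact Finset.sum_congr rfl fun j _ => h8 j
        _ = 0 := by rw [h6, h7, smul_zero, add_zero]
  have h1 := key _ (fun _ => 1) le_rfl (by simpa using hu)
  simp only [one_smul] at h1
  by_contra hne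
  apply hmin E ⟨i₀, ?_⟩ ?_ h1
  · rw [hE, Finset.mem_filter]
    exact ⟨Finset.mem_univ _, hR.refl _⟩
  · intro h2
    have h3 : j₀ ∈ E := by rw [h2]; exact Finset.mem_univ _
    rw [hE, Finset.mem_filter] at h3
    exact hne h3.2

end Pool.Agent.L5helper62.SK
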