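import Pool.Agent.N254.SQ.LocDefs
import Pool.Agent.W602.RG.TB

/-!
Closed subvarieties of projective spaces over a field: those which are not of general type, those
which are not pseudo-geometrically hyperbolic, components, smooth hypersurfaces.
-/

set_option autoImplicit false

namespace Pool.Agent.L5helper62.SK

open MvPolynomial FF
open Pool.Agent.W602.GT (SubVar GeneralType IsForm val)
open Pool.Agent.W602.RG (PseudoGeomHyp HasValue)
open scoped LinearAlgebra.Projectivization

section

variable {k : Type} [Field k] {n : ℕ} (S : Set (MvPolynomial (Fin (n + 1)) k))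

/-- `L` is the function field, and `y` the generic point in homogeneous coordinates, of an irreducible
closed subset of `V(S)` of dimension `w` -/
def SubVarOf (L : Type) [Field L] [Algebra k L] (w : ℕ) (y : Fin (n + 1) → L) : Prop :=
  SubVar (fun p : S => (p : MvPolynomial (Fin (n + 1)) k)) L w y

/-- `G` vanishes on all closed subvarieties of `V(S)` of positive dimension which are not of general
type -/
def OnSpecial (G : MvPolynomial (Fin (n + 1)) k) : Prop :=
  ∀ (L : Type) [Field L] [Algebra k L] (w : ℕ) (y : Fin (n + 1) → L), 1 ≤ w →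
    SubVarOf S L w y → GeneralType k L w ∨ val y G = 0

/-- `G` vanishes on all closed subvarieties of `V(S)` of positive dimension which are not
pseudo-geometrically hyperbolic -/
def OnNonHyp (G : MvPolynomial (Fin (n + 1)) k) : Prop :=
  ∀ (L : Type) [Field L] [Algebra k L] (w : ℕ) (y : Fin (n + 1) → L), 1 ≤ w →
    SubVarOf S L w y → PseudoGeomHyp k y ∨ val y G = 0

/-- the closed subvarieties of `V(S)` of positive dimension are of general type if and only if they are
pseudo-geometrically hyperbolic -/
def LangFor : Prop :=
  ∀ (L : Type) [Field L] [Algebra k L] (w : ℕ) (y : Fin (n + 1) → L), 1 ≤ w →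
    SubVarOf S L w y → (GeneralType k L w ↔ PseudoGeomHyp k y)

/-- the morphisms to `V(S)` from the smooth projective curve with function field `E` which map the point
`c` to the point `x` -/
def Maps {E : Type} [Field E] [Algebra k E] (c : Place k E) (x : Fin (n + 1) → k) :
    Set (ℙ E (Fin (n + 1) → E)) :=
  {φ | ∃ (f : Fin (n + 1) → E) (hf : f ≠ 0), (∀ p ∈ S, val f p = 0) ∧ HasValue c x f ∧
    φ = Projectivization.mk E f hf}

end

/-- The irreducible closed set with generic point `y` is a component of the closed set on which
exactly the forms in `I` vanish: all of them vanish at `y`, and for some form `H` with `H(y) ≠ 0` all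
products `G H` with `G(y) = 0` are in `I`. -/
def Component {k : Type} [Field k] {n : ℕ} (I : MvPolynomial (Fin (n + 1)) k → Prop) {L : Type}
    [Field L] [Algebra k L] (y : Fin (n + 1) → L) : Prop :=
  (∀ G, IsForm G → I G → val y G = 0) ∧
    ∃ H, IsForm H ∧ val y H ≠ 0 ∧ ∀ G, IsForm G → val y G = 0 → I (G * H)

/-- the partial derivatives have no common zeros in `P^N` -/
def SmoothForm {k : Type} [Field k] {N : ℕ} (A : MvPolynomial (Fin (N + 1)) k) : Prop :=
  ∀ y : Fin (N + 1) → k, y ≠ 0 → ∃ j, eval y (pderiv j A) ≠ 0

/-- the form `∑ t, Q_t(y) (y_0 + t y_1 + ⋯ + t ^ N y_N) ^ D` -/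
noncomputable def powerForm {k : Type} [Field k] {N M : ℕ} (D : ℕ)
    (Q : Fin M → MvPolynomial (Fin (N + 1)) k) : MvPolynomial (Fin (N + 1)) k :=
  ∑ t : Fin M, Q t * (∑ j : Fin (N + 1), C (((t : ℕ) : k) ^ (j : ℕ)) * X j) ^ D

end Pool.Agent.L5helper62.SK
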