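import Pool.Agent.L5helper62.SK.Hyp

/-!
The dimension of a closed subvariety.
-/

set_option autoImplicit false

namespace Pool.Agent.L5helper62.SK

open MvPolynomial
open Pool.Agent.W602.GT (IsForm val coords)

variable {k : Type} [Field k] {n : ℕ}

/-- affine coordinates generate the function field -/
theorem adjoin_top {L : Type} [Field L] [Algebra k L] {y : Fin (n + 1) → L} (hgen : coords k y = ⊤)
    {a : Fin (n + 1)} (ha : y a ≠ 0) :
    IntermediateField.adjoin k (Set.range fun j => y j / y a) = ⊤ := by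
  rw [eq_top_iff, ← hgen]
  apply IntermediateField.adjoin_le_iff.2
  rintro _ ⟨i, j, hj, rfl⟩
  have h3 : ∀ b, y b / y a ∈ IntermediateField.adjoin k (Set.range fun j => y j / y a) := fun b =>
    IntermediateField.subset_adjoin k _ ⟨b, rfl⟩
  have h4 : y i / y j = (y i / y a) / (y j / y a) := by
    rw [div_div_div_cancel_right₀ ha]
  rw [h4]
  exact div_mem (h3 i) (h3 j)

/-- homogenization -/
theorem homog (a : Fin (n + 1)) (P : MvPolynomial (Fin (n + 1)) k) :
    ∃ H : MvPolynomial (Fin (n + 1)) k, IsForm H ∧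
      ∀ (Ω : Type) [Field Ω] [Algebra k Ω] (y : Fin (n + 1) → Ω), y a ≠ 0 →
        (aeval y H = 0 ↔ aeval (fun j => y j / y a) P = 0) := by
  obtain ⟨N, hN⟩ : ∃ N, N = P.totalDegree := ⟨_, rfl⟩
  refine ⟨∑ i ∈ Finset.range (N + 1), X a ^ (N - i) * homogeneousComponent i P, ⟨N, ?_⟩, ?_⟩
  · refine IsHomogeneous.sum _ _ _ fun i hi => ?_
    have h1 := ((isHomogeneous_X k a).pow (N - i)).mul (homogeneousComponent_isHomogeneous i P)
    rw [one_mul, Nat.sub_add_cancel (by rw [Finset.mem_range] at hi; omega)] at h1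
    exact h1
  · intro Ω _ _ y ha
    have h1 : ∀ i ∈ Finset.range (N + 1), aeval y (X a ^ (N - i) * homogeneousComponent i P) =
        y a ^ N * aeval (fun j => y j / y a) (homogeneousComponent i P) := by
      intro i hi
      have h2 : (fun j => y j / y a) = (y a)⁻¹ • y := by
        funext j
        rw [Pi.smul_apply, smul_eq_mul, div_eq_mul_inv, mul_comm]
      rw [h2, aeval_scale (homogeneousComponent_isHomogeneous i P), map_mul, map_pow, aeval_X,
        ← mul_assoc]
      congr 1
      have hi' : i ≤ N := by rw [Finset.mem_range] at hi; omega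
      obtain ⟨j, rfl⟩ := Nat.exists_eq_add_of_le hi'
      rw [Nat.add_sub_cancel_left, inv_pow, pow_add]
      have h3 : y a ^ i ≠ 0 := pow_ne_zero _ ha
      field_simp
    rw [map_sum, Finset.sum_congr rfl h1, ← Finset.mul_sum, ← map_sum, hN,
      sum_homogeneousComponent, mul_eq_zero]
    constructor
    · rintro (h | h)
      · exact absurd h (pow_ne_zero _ ha)
      · exact h
    · exact Or.inr

/-- the dimension of a closed subvariety is at most the dimension of the variety -/
theorem dim_mono {L L' : Type} [Field L] [Algebra k L] [Field L'] [Algebra k L'] {w w' : ℕ}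
    {y : Fin (n + 1) → L} {y' : Fin (n + 1) → L'}
    (hy : SubVarOf (∅ : Set (MvPolynomial (Fin (n + 1)) k)) L w y)
    (hy' : SubVarOf (Eqs k y) L' w' y') : w' ≤ w := by
  obtain ⟨a, ha'⟩ : ∃ a, y' a ≠ 0 := by
    by_contra hcon
    push Not at hcon
    exact hy'.ne (funext hcon)
  have ha : y a ≠ 0 := by
    intro h
    apply ha'
    have h1 : aeval y' (X a : MvPolynomial (Fin (n + 1)) k) = 0 :=
      hy'.mem ⟨X a, ⟨1, isHomogeneous_X k a⟩, by
        change aeval y (X a) = 0
        rw [aeval_X, h]⟩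
    rwa [aeval_X] at h1
  obtain ⟨z, hz⟩ : ∃ z : Fin (n + 1) → L, z = fun j => y j / y a := ⟨_, rfl⟩
  obtain ⟨z', hz'⟩ : ∃ z' : Fin (n + 1) → L', z' = fun j => y' j / y' a := ⟨_, rfl⟩
  have hker : ∀ P : MvPolynomial (Fin (n + 1)) k, aeval z P = 0 → aeval z' P = 0 := by
    intro P hP
    obtain ⟨H, hH, hHP⟩ := homog a P
    rw [hz] at hP
    have h1 := (hHP L y ha).2 hP
    have h2 : aeval y' H = 0 := hy'.mem ⟨H, hH, h1⟩
    rw [hz']
    exact (hHP L' y' ha').1 h2
  have hd' : Algebra.trdeg k (Algebra.adjoin k (Set.range z')) = w' := by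
    rw [← Pool.Agent.N254.SQ.trdeg_field, hz', adjoin_top hy'.gen ha', ← hy'.dim]
    exact (IntermediateField.topEquiv (F := k) (E := L')).trdeg_eq
  have h1 : Algebra.trdeg k (MvPolynomial (Fin (n + 1)) k ⧸
      RingHom.ker (aeval z : MvPolynomial (Fin (n + 1)) k →ₐ[k] L)) ≤ Algebra.trdeg k L :=
    trdeg_le_of_injective (Ideal.kerLiftAlg (aeval z : MvPolynomial (Fin (n + 1)) k →ₐ[k] L))
      (Ideal.kerLiftAlg_injective _)
  have h2 : Algebra.trdeg k (Algebra.adjoin k (Set.range z')) ≤
      Algebra.trdeg k (MvPolynomial (Fin (n + 1)) k ⧸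
        RingHom.ker (aeval z : MvPolynomial (Fin (n + 1)) k →ₐ[k] L)) := by
    rw [Algebra.adjoin_range_eq_range_aeval]
    refine trdeg_le_of_surjective (Ideal.Quotient.liftₐ _
      (aeval z' : MvPolynomial (Fin (n + 1)) k →ₐ[k] L').rangeRestrict ?_) ?_
    · intro P hP
      exact Subtype.ext (hker P hP)
    · rintro ⟨x, P, rfl⟩
      refine ⟨Ideal.Quotient.mk _ P, ?_⟩
      rfl
  rw [hd'] at h2
  rw [hy.dim] at h1
  exact_mod_cast h2.trans h1

end Pool.Agent.L5helper62.SK
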