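import Mathlib
import Pool.Agent.N254.SQ.StmG
import Pool.Agent.W602.GT.Sys
import Pool.Agent.W602.GT.SpDefs

/-!
Project SQ, second part: subvarieties of general type. Statements of the leaves.
-/

set_option autoImplicit false

namespace Pool.Agent.L5helper62.SK

open MvPolynomial FF
open Pool.Agent.W602.GT
open Pool.Agent.N254.SQ (lin wt2)

/-- GTA: pluricanonical forms from circuits -/
def GTA_stm : Prop :=
  ∀ (𝕜 : Type) [Field 𝕜] [IsAlgClosed 𝕜] [CharZero 𝕜] (K : Type) [Field K] [Algebra 𝕜 K] (w : ℕ),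
    1 ≤ w → ∀ t : Fin w → K,
    IsTranscendenceBasis 𝕜 t → ∀ (I : Type) [Fintype I] (m : I → ℕ)
    (T : ∀ i : I, Fin (m i + 1) → K), (∀ i j, T i j ≠ 0) → (∀ i, ∑ j, T i j = 0) →
    (∀ i, LinearIndependent 𝕜 (fun l => T i ((Fin.last (m i)).succAbove l))) →
    ∃ g₀ : K, g₀ ≠ 0 ∧ ∀ (h : K) (P : Place 𝕜 K), h ≠ 0 →
      ((∀ j, P.ord (t j) = 0) ∧ (∀ i j l, P.ord (T i j) = P.ord (T i l)) ∧ 0 ≤ P.ord h ∨
        ∃ b : ∀ i, Fin (m i + 1), (∀ i j, P.ord (T i (b i)) ≤ P.ord (T i j)) ∧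
          (wt2 m : ℤ) ≤ ∑ i, ∑ j, (P.ord (T i j) - P.ord (T i (b i))) + P.ord h) →
      RegAt P (form t (wt2 m) (g₀ * h))

/-- GT: the analogue of SIZE for function fields -/
def GT_stm : Prop :=
  ∀ e M : ℕ, ∃ D₁ : ℕ, ∀ D, D₁ ≤ D → ∀ (𝕜 : Type) [Field 𝕜] [IsAlgClosed 𝕜] [CharZero 𝕜]
    (K : Type) [Field K] [Algebra 𝕜 K] (n w : ℕ)
    (y : Fin (n + 1) → K), 1 ≤ w → y ≠ 0 → coords 𝕜 y = ⊤ → Algebra.trdeg 𝕜 K = w →
    ∀ (κ : Type) [Fintype κ], Fintype.card κ ≤ M → n + 1 ≤ Fintype.card κ →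
    ∀ (G : κ → MvPolynomial (Fin (n + 1)) 𝕜) (p : κ → ℕ), Function.Injective p →
      (∀ t, (G t).IsHomogeneous e) →
      ∑ t, val y (G t) * val y (lin 𝕜 n (p t)) ^ D = 0 →
      (∀ B : Finset κ, B.Nonempty → B ≠ Finset.univ →
        ∑ t ∈ B, val y (G t) * val y (lin 𝕜 n (p t)) ^ D ≠ 0) →
      GeneralType 𝕜 K w

end Pool.Agent.L5helper62.SK
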