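import Mathlib
import Pool.Agent.L5helper62.SK.StmG
import Pool.Agent.W602.GT.Core

/-!
# Project SQ, second part, GTA (helper891): pluricanonical forms from circuits

Adapted from `Pool.Agent.W602.GT.core`.
-/

set_option autoImplicit false

namespace Pool.Agent.L5helper62.SK

open FF Pool.Agent.W603.LV
open Pool.Agent.W602.GT
open Pool.Agent.N254.SQ (wt2)

variable {𝕜 : Type} [Field 𝕜] [IsAlgClosed 𝕜] [CharZero 𝕜] {K : Type} [Field K] [Algebra 𝕜 K] {I : Type} [Fintype I] {m : I → ℕ}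

/-- the product of the factors -/
noncomputable def gta_G (E : Derivation 𝕜 K K) (T : ∀ i : I, Fin (m i + 1) → K) : K :=
  ∏ i, (eta E (T i) ^ (m i + 1) * ∏ j, T i j)

lemma gta_smul (δ : K) (D : Derivation 𝕜 K K) (T : ∀ i : I, Fin (m i + 1) → K) :
    gta_G (δ • D) T = δ ^ (∑ i, (m i + 1) * tn (m i)) * gta_G D T := by
  unfold gta_G
  have h : ∀ i : I, eta (δ • D) (T i) ^ (m i + 1) * ∏ j, T i j =
      δ ^ ((m i + 1) * tn (m i)) * (eta D (T i) ^ (m i + 1) * ∏ j, T i j) := by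
    intro i
    rw [eta_smul, mul_pow, ← pow_mul, mul_comm (m i + 1)]
    unfold tn
    ring
  rw [Finset.prod_congr rfl fun i _ => h i, Finset.prod_mul_distrib, Finset.prod_pow_eq_pow_sum]

lemma gta_fac {P : Place 𝕜 K} {E : Derivation 𝕜 K K} {m : ℕ} {T : Fin (m + 1) → K}
    {b : Fin (m + 1)} {ε : ℤ} (h : Ge P (- P.ord (T b) - ε * tri m) (eta E T))
    (hT : ∀ j, T j ≠ 0) :
    Ge P (∑ j, (P.ord (T j) - P.ord (T b)) - ε * ((m + 1) * tn m : ℕ))
      (eta E T ^ (m + 1) * ∏ j, T j) := by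
  have h1 := (h.pow (m + 1)).mul (ge_ord P (∏ j, T j))
  refine h1.mono ?_
  rw [ord_prod' P _ _ fun j _ => hT j, tri_eq, Finset.sum_sub_distrib]
  push_cast
  simp only [Finset.sum_const, Finset.card_univ, Fintype.card_fin, nsmul_eq_mul]
  push_cast
  apply le_of_eq
  ring

lemma gta_ge {P : Place 𝕜 K} {E : Derivation 𝕜 K K} {T : ∀ i : I, Fin (m i + 1) → K}
    (hT : ∀ i j, T i j ≠ 0) {b : ∀ i, Fin (m i + 1)} {ε : ℤ}
    (h : ∀ i, Ge P (- P.ord (T i (b i)) - ε * tri (m i)) (eta E (T i))) :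
    Ge P (∑ i, ∑ j, (P.ord (T i j) - P.ord (T i (b i))) -
      ε * (∑ i, (m i + 1) * tn (m i) : ℕ)) (gta_G E T) := by
  unfold gta_G
  have h1 := Ge.prod (P := P) Finset.univ
    (fun i => eta E (T i) ^ (m i + 1) * ∏ j, T i j)
    (fun i => ∑ j, (P.ord (T i j) - P.ord (T i (b i))) - ε * ((m i + 1) * tn (m i) : ℕ))
    (fun i _ => gta_fac (h i) (hT i))
  refine h1.mono ?_
  rw [Finset.sum_sub_distrib, ← Finset.mul_sum]
  push_cast
  exact le_rfl

theorem t_gta : GTA_stm := by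
  classical
  intro 𝕜 _ _ _ K _ _ w hw t hbasis I _ m T hT hsum hlin
  obtain ⟨lam, hlam⟩ := exists_lam 𝕜 w
  obtain ⟨D0, hD0⟩ := exists_der t hbasis (fun j => algebraMap 𝕜 K (lam j) * t j)
  have ht0 : ∀ j, t j ≠ 0 := by
    intro j hj
    have h4 := hbasis.1.transcendental j
    rw [hj] at h4
    exact h4 isAlgebraic_zero
  have hconst : ∀ h, D0 h = 0 → ∃ c : 𝕜, h = algebraMap 𝕜 K c := fun h hh =>
    const_of_der t hbasis lam hlam D0 hD0 hh
  have heta0 : ∀ i, eta D0 (T i) ≠ 0 := fun i =>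
    div_ne_zero (wr_ne hconst _ (hlin i)) (Finset.prod_ne_zero_iff.2 fun j _ => hT i j)
  have hG0 : gta_G D0 T ≠ 0 := Finset.prod_ne_zero_iff.2 fun i _ =>
    mul_ne_zero (pow_ne_zero _ (heta0 i)) (Finset.prod_ne_zero_iff.2 fun j _ => hT i j)
  have hpt : (∏ j, t j) ≠ 0 := Finset.prod_ne_zero_iff.2 fun j _ => ht0 j
  refine ⟨gta_G D0 T / (∏ j, t j) ^ wt2 m, div_ne_zero hG0 (pow_ne_zero _ hpt), ?_⟩
  intro h P hh halt D hD
  have hkey : form t (wt2 m) (gta_G D0 T / (∏ j, t j) ^ wt2 m * h) D =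
      h * (gta_G (con t lam D) T * (lmat t D).det) := by
    have h1 : con t lam D = (lmat t D).det • D0 := by
      apply der_ext t hbasis
      intro l
      rw [con_t t lam D ht0 l, Derivation.coe_smul, Pi.smul_apply, hD0, smul_eq_mul]
      ring
    have h2 : (Matrix.of fun i j => D i (t j)).det = (∏ j, t j) * (lmat t D).det := by
      rw [← Matrix.det_mul_row]
      congr 1
      ext i j
      simp only [Matrix.of_apply, lmat]
      have := ht0 j
      field_simp
    unfold form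
    rw [h1, gta_smul, h2, mul_pow]
    have h3 : (lmat t D).det ^ wt2 m =
        (lmat t D).det ^ (∑ i, (m i + 1) * tn (m i)) * (lmat t D).det := by
      unfold wt2
      rw [pow_succ]
    rw [h3]
    field_simp
  rw [hkey, reg_iff_ge]
  rcases halt with ⟨ht1, ht2, hh0⟩ | ⟨b, hb, hbb⟩
  · -- no zeros or poles
    have hE := con_reg t lam D hD ht0 ht1
    have h1 := gta_ge (P := P) (E := con t lam D) hT (b := fun i => 0) (ε := 0) (fun i => by
      rw [zero_mul, sub_zero]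
      exact eta_reg hE (hT i) (hsum i) 0 (fun j => ht2 i j 0))
    have h2 : Ge P 0 (lmat t D).det :=
      ge_det P _ 0 (fun _ _ => 0) (fun i l => ge_logder_reg (hD i) (ht0 l) (ht1 l))
        (fun σ => by simp)
    have h3 := (ge_ord P h).mul (h1.mul h2)
    refine h3.mono ?_
    have h4 : ∑ i, ∑ j, (P.ord (T i j) - P.ord (T i 0)) = 0 :=
      Finset.sum_eq_zero fun i _ => Finset.sum_eq_zero fun j _ => by rw [ht2 i j 0, sub_self]
    rw [h4]
    linarith
  · have h1 := gta_ge (P := P) (E := con t lam D) hT (b := b) (ε := 1) (fun i => by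
      have hE : ∀ x : K, x ≠ 0 → Ge P (-1) (con t lam D x / x) := fun x hx =>
        con_pole t lam D hD ht0 hx
      exact eta_log hE (hT i) (hsum i) (b i))
    have h2 : Ge P (-1) (lmat t D).det := det_log D hD t ht0
    have h3 := (ge_ord P h).mul (h1.mul h2)
    refine h3.mono ?_
    unfold wt2 at hbb
    push_cast at hbb ⊢
    linarith

end Pool.Agent.L5helper62.SK
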