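import Pool.Agent.L5helper62.SK.Defs
import Pool.Agent.L5helper62.SK.GTA
import Pool.Agent.L5helper62.SK.GT
import Pool.Agent.N254.SQ.Fin
import Pool.Agent.N254.SQ.Main2
import Pool.Agent.N254.SQ.AlgS
import Pool.Agent.N254.SQ.Hblk
import Pool.Agent.N254.SQ.Hform
import Pool.Agent.N254.SQ.Hineq

/-!
Smooth hypersurfaces through a projective variety over an algebraically closed field of characteristic
zero, with control of the subvarieties which are not of general type and of the algebraic curves.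
Adapted from `Pool.Agent.N254.SQ.GeoC`.
-/

set_option autoImplicit false

namespace Pool.Agent.L5helper62.SK

open MvPolynomial FF
open Pool.Agent.N254.SQ (lin hyp Smooth Alg_stm split_card sub_min t_part t_blocks t_smooth t_spec
  t_count t_td fam_hom td_scale powerSum Mon ver t_ver reduce hyp_vanish)
open Pool.Agent.W602.GT (SubVar GeneralType val coords IsForm)
open Pool.Agent.W603.LV (canDeg)
open Pool.Agent.W603.PV (pht)

/-- The properties of the general hypersurface. -/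
theorem main_k (hAlg : Alg_stm) (hG : GT_stm) (n e : ℕ) (hn : 1 ≤ n) :
    ∃ D₁ : ℕ, ∀ D, D₁ ≤ D → ∀ (K : Type) [Field K] [IsAlgClosed K] [CharZero K]
      (ι : Type) [Fintype ι] (q : ι → MvPolynomial (Fin (n + 1)) K),
      (∀ i, (q i).IsHomogeneous e) → ∀ r : ℕ,
      (∀ (Ω : Type) [Field Ω] [Algebra K Ω] (x : Fin (n + 1) → Ω), x ≠ 0 →
        (∀ i, aeval x (q i) = 0) →
        r < (Matrix.of fun (i : ι) (j : Fin (n + 1)) => (aeval x (pderiv j (q i)) : Ω)).rank) →
      (∀ (Ω : Type) [Field Ω] [Algebra K Ω] (x : Fin (n + 1) → Ω) (a : Fin (n + 1)), x a = 1 →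
        (∀ i, aeval x (q i) = 0) → Algebra.trdeg K (Algebra.adjoin K (Set.range x)) ≤ r) →
      ∃ c : Fin (n * (2 * n + 1)) × ι → K, Smooth (hyp q D c) ∧
        (∀ (F : Type) [Field F] [Algebra K F] (w : ℕ) (y : Fin (n + 1) → F), 1 ≤ w → y ≠ 0 →
          coords K y = ⊤ → Algebra.trdeg K F = w → aeval y (hyp q D c) = 0 →
          (∀ i, aeval y (q i) = 0) ∨ GeneralType K F w) ∧
        ∀ (E : Type) [Field E] [Algebra K E] [IsFF K E] (y : Fin (n + 1) → E), y ≠ 0 →
          aeval y (hyp q D c) = 0 →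
          pht K y ≤ max (canDeg K E) 0 ∨ ∀ i, aeval y (q i) = 0 := by
  classical
  obtain ⟨D₂, hD₂⟩ := hG e (n * (2 * n + 1))
  obtain ⟨D₄, hD₄⟩ := hAlg n e (n * (2 * n + 1))
  refine ⟨max (max D₂ 1) D₄, fun D hD' K _ _ _ ι _ q hq r hr1 hr2 => ?_⟩
  have hDD4 : D₄ ≤ D := le_trans (le_max_right _ _) hD'
  have hDD2 : D₂ ≤ D := le_trans (le_trans (le_max_left _ _) (le_max_left _ _)) hD'
  have hD1 : 1 ≤ D := le_trans (le_trans (le_max_right _ _) (le_max_left _ _)) hD'
  set L := n * (2 * n + 1) with hL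
  have hL2 : 2 * n + 1 ≤ L := Nat.le_mul_of_pos_left _ hn
  obtain ⟨Δ₁, hΔ₁, hB1⟩ := t_blocks t_spec t_count t_td K n L D e ι q hq
  obtain ⟨Δ₂, hΔ₂, hS1⟩ := t_smooth t_spec t_count t_td K n L D e r ι q hq hD1 hL2 hr1 hr2
  obtain ⟨c, hc⟩ : ∃ c : Fin L × ι → K, eval c (Δ₁ * Δ₂) ≠ 0 := by
    by_contra hcon
    push Not at hcon
    exact mul_ne_zero hΔ₁ hΔ₂ (MvPolynomial.funext fun c => by rw [hcon c, map_zero])
  rw [map_mul] at hc
  have hc1 := left_ne_zero_of_mul hc
  have hc2 := right_ne_zero_of_mul hc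
  have haev : ∀ (Ω : Type) [Field Ω] (σ : K →+* Ω) (Δ : MvPolynomial (Fin L × ι) K),
      eval c Δ ≠ 0 → eval₂ σ (fun p => σ (c p)) Δ ≠ 0 := by
    intro Ω _ σ Δ h h2
    apply h
    apply σ.injective
    rw [map_zero, ← h2]
    exact (eval₂_comp (f := σ) (g := c) Δ).trans rfl
  -- the values of the terms
  have hval : ∀ (Ω : Type) [Field Ω] [Algebra K Ω] (x : Fin (n + 1) → Ω) (t : Fin L),
      aeval x (∑ i, C (c (t, i)) * q i) * aeval x (lin K n t) ^ D =
        (∑ i, algebraMap K Ω (c (t, i)) * aeval x (q i)) * aeval x (lin K n t) ^ D := by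
    intro Ω _ _ x t
    rw [map_sum]
    congr 1
    apply Finset.sum_congr rfl
    intro i _
    rw [map_mul, aeval_C]
  have hkey : ∀ (Ω : Type) [Field Ω] [Algebra K Ω] (x : Fin (n + 1) → Ω)
      (𝓑 : Finset (Finset (Fin L))), x ≠ 0 → (∀ B ∈ 𝓑, B.Nonempty) →
      (∀ B ∈ 𝓑, ∀ B' ∈ 𝓑, B ≠ B' → Disjoint B B') → L ≤ n * 𝓑.card →
      (∀ B ∈ 𝓑, ∑ t ∈ B, aeval x (∑ i, C (c (t, i)) * q i) * aeval x (lin K n t) ^ D = 0) →
      ∀ i, aeval x (q i) = 0 := by
    intro Ω _ _ x 𝓑 hx hne hdis hcard hvan i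
    have hcard2 : 2 * n + 1 ≤ 𝓑.card := Nat.le_of_mul_le_mul_left hcard hn
    refine hB1 Ω (fun p => algebraMap K Ω (c p)) (haev Ω (algebraMap K Ω) Δ₁ hc1) 𝓑 hne hdis hcard2 x
      hx (fun B hBB => ?_) i
    rw [← hvan B hBB]
    apply Finset.sum_congr rfl
    intro t _
    rw [hval]
  have hsum : ∀ (Ω : Type) [Field Ω] [Algebra K Ω] (x : Fin (n + 1) → Ω),
      aeval x (hyp q D c) = ∑ t : Fin L, aeval x (∑ i, C (c (t, i)) * q i) *
        aeval x (lin K n t) ^ D := by
    intro Ω _ _ x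
    rw [hyp, map_sum]
    apply Finset.sum_congr rfl
    intro t _
    rw [map_mul, map_pow]
  have hhom : ∀ (t : Fin L), (∑ i, C (c (t, i)) * q i).IsHomogeneous e := fun t => fam_hom hq _
  refine ⟨c, ?_, ?_, ?_⟩
  · intro Ω _ σ x hx
    letI : Algebra K Ω := σ.toAlgebra
    obtain ⟨j, hj⟩ := hS1 Ω (fun p => σ (c p)) (haev Ω σ Δ₂ hc2) x hx
    refine ⟨j, ?_⟩
    rw [Pool.Agent.N254.SQ.map_hyp]
    exact hj
  · intro F _ _ w y hw hyne hgen hdim hy
    by_cases hgt : GeneralType K F w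
    · exact Or.inr hgt
    · left
      intro i
      obtain ⟨𝓑, hne, hdis, hvan, hcard⟩ := split_card t_part hn (fun t : Fin L =>
        aeval y (∑ i, C (c (t, i)) * q i) * aeval y (lin K n t) ^ D) (by
          rw [← hsum F]
          exact hy) (by
        intro B hBc hB0 hBmin
        apply hgt
        have hc : Fintype.card {t // t ∈ B} = B.card := Fintype.card_coe B
        refine hD₂ D hDD2 K F n w y hw hyne hgen hdim {t // t ∈ B} ?_ ?_
          (fun t => ∑ i, C (c (t.1, i)) * q i) (fun t => (t.1 : ℕ)) ?_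
          (fun t => hhom t.1) ?_ ?_
        · rw [hc]
          exact (Finset.card_le_univ B).trans (by simp)
        · rw [hc]
          exact hBc
        · intro a b hab
          exact Subtype.ext (Fin.ext hab)
        · have h1 := hB0
          rw [← Finset.sum_coe_sort] at h1
          exact h1
        · intro B' hB' hB'u
          exact sub_min (fun t : Fin L =>
            aeval y (∑ i, C (c (t, i)) * q i) * aeval y (lin K n t) ^ D) B hBmin B' hB' hB'u)
      exact hkey F y 𝓑 hyne hne hdis hcard hvan i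
  · intro E _ _ _ y hy0 hy
    by_cases hb : pht K y ≤ max (canDeg K E) 0
    · exact Or.inl hb
    · right
      intro i
      obtain ⟨𝓑, hne, hdis, hvan, hcard⟩ := split_card t_part hn (fun t : Fin L =>
        aeval y (∑ i, C (c (t, i)) * q i) * aeval y (lin K n t) ^ D) (by
          rw [← hsum E]
          exact hy) (by
        intro B hBc hB0 hBmin
        apply hb
        have hc : Fintype.card {t // t ∈ B} = B.card := Fintype.card_coe B
        refine hD₄ D hDD4 K E {t // t ∈ B} ?_ ?_ ?_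
          (fun t => ∑ i, C (c (t.1, i)) * q i) (fun t => (t.1 : ℕ)) ?_
          (fun t => hhom t.1) y hy0 ?_ ?_
        · rw [hc]
          exact (Finset.card_le_univ B).trans (by simp)
        · rw [hc]
          exact hBc
        · rw [hc]
          omega
        · intro a b hab
          exact Subtype.ext (Fin.ext hab)
        · have h1 := hB0
          rw [← Finset.sum_coe_sort] at h1
          exact h1
        · intro B' hB' hB'u
          exact sub_min (fun t : Fin L =>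
            aeval y (∑ i, C (c (t, i)) * q i) * aeval y (lin K n t) ^ D) B hBmin B' hB' hB'u)
      exact hkey E y 𝓑 hy0 hne hdis hcard hvan i

/-- the properties of the hypersurface `A = 0` through `v(V(S))` -/
structure GoodK {k : Type} [Field k] (n N d : ℕ) (m : Fin (N + 1) → Fin (n + 1) → ℕ)
    (S : Set (MvPolynomial (Fin (n + 1)) k)) (A : MvPolynomial (Fin (N + 1)) k) : Prop where
  mon : Mon n N d m
  deg : 1 ≤ d
  homS : ∀ p ∈ S, IsForm p
  homA : IsForm A
  sub : ∀ (L : Type) [Field L] [Algebra k L] (x : Fin (n + 1) → L), (∀ p ∈ S, aeval x p = 0) →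
    aeval (ver m x) A = 0
  special : ∀ (L : Type) [Field L] [Algebra k L] (w : ℕ) (y : Fin (N + 1) → L), 1 ≤ w →
    SubVarOf {A} L w y → GeneralType k L w ∨
      ∃ (x : Fin (n + 1) → L) (c : L), x ≠ 0 ∧ c ≠ 0 ∧ (∀ p ∈ S, aeval x p = 0) ∧ y = c • ver m x
  alg : ∀ (E : Type) [Field E] [Algebra k E] [IsFF k E] (y : Fin (N + 1) → E), y ≠ 0 →
    aeval y A = 0 → pht k y ≤ max (canDeg k E) 0 ∨
      ∃ (x : Fin (n + 1) → E) (c : E), x ≠ 0 ∧ c ≠ 0 ∧ (∀ p ∈ S, aeval x p = 0) ∧ y = c • ver m x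

/-- smooth hypersurfaces through all projective varieties -/
def GeoK (D₁ : ℕ → ℕ) : Prop :=
    ∀ n d : ℕ, 1 ≤ n → 3 ≤ d → ∀ (N : ℕ) (m : Fin (N + 1) → Fin (n + 1) → ℕ),
      Mon n N d m → 2 * n < N → ∀ D, D₁ N ≤ D →
        ∀ (k : Type) [Field k] [IsAlgClosed k] [CharZero k]
        (S : Set (MvPolynomial (Fin (n + 1)) k)), (∀ p ∈ S, ∃ e ≤ d, p.IsHomogeneous e) →
        ∃ Q : Fin (N * (2 * N + 1)) → MvPolynomial (Fin (N + 1)) k,
          (∀ t, (Q t).IsHomogeneous 2) ∧ SmoothForm (powerForm D Q) ∧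
          GoodK n N d m S (powerForm D Q)

theorem power_form {K : Type} [Field K] {N M D : ℕ} {Q : Fin M → MvPolynomial (Fin (N + 1)) K}
    (hQ : ∀ t, (Q t).IsHomogeneous 2) : IsForm (powerForm D Q) := by
  refine ⟨2 + D, IsHomogeneous.sum _ _ _ fun t _ => ?_⟩
  have h1 := (hQ t).mul ((Pool.Agent.N254.SQ.lin_hom K N (t : ℕ)).pow D)
  rw [one_mul] at h1
  exact h1

theorem geo_k (hAlg : Alg_stm) (hG : GT_stm) : ∃ D₁ : ℕ → ℕ, GeoK D₁ := by
  classical
  have hmain := fun (N : ℕ) (hN1 : 1 ≤ N) => main_k hAlg hG N 2 hN1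
  refine ⟨fun N => if h : 1 ≤ N then (hmain N h).choose else 0, fun n d hn hd N m hm hN => ?_⟩
  have hN1 : 1 ≤ N := by omega
  have hd1 : 1 ≤ d := by omega
  simp only [hN1, dif_pos]
  have hD₁ := (hmain N hN1).choose_spec
  intro D hD K _ _ _ S hS
  obtain ⟨T, hT, hTS⟩ := reduce S
  have hT2 : ∀ p : T, ∃ e ≤ d, (p : MvPolynomial (Fin (n + 1)) K).IsHomogeneous e :=
    fun p => hS _ (hT p.2)
  choose g hg hF using hT2
  -- zeros of the finite family are zeros of all equations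
  have hS2 : ∀ (Ω : Type) [Field Ω] [Algebra K Ω] (x : Fin (n + 1) → Ω),
      (∀ p : T, aeval x (p : MvPolynomial (Fin (n + 1)) K) = 0) → ∀ p ∈ S, aeval x p = 0 := by
    intro Ω _ _ x hx p hp
    have h1 := hTS Ω (algebraMap K Ω) x (fun p hp => by
      rw [eval_map]
      exact hx ⟨p, hp⟩) p hp
    rw [eval_map] at h1
    exact h1
  obtain ⟨ι, _, q, hq2, hqv, hqr⟩ := t_ver K n N d m hm hd1 T
    (fun p => (p : MvPolynomial (Fin (n + 1)) K)) g hF hg
  obtain ⟨c, hc1, hc2, hc3⟩ := hD₁ D hD K ι q hq2 n (by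
    intro Ω _ _ x hx hxq
    have h1 := (hqr Ω x hx hxq).1
    omega) (by
    intro Ω _ _ y a hya hyq
    have hy0 : y ≠ 0 := by
      intro h
      rw [h] at hya
      exact zero_ne_one hya
    obtain ⟨-, x, a', b, hxa, hyb, hyc, -⟩ := hqr Ω y hy0 hyq
    refine td_scale t_td x a' hxa (ver m x) y (fun b => ?_) a (fun c => ?_)
    · refine ⟨∏ j, X j ^ m b j, ?_⟩
      rw [map_prod]
      unfold ver
      apply Finset.prod_congr rfl
      intro j _
      rw [map_pow, aeval_X]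
    · have h1 := hyc a
      rw [hya] at h1
      have h2 : ver m x a ≠ 0 := by
        intro h3
        rw [h3, mul_zero] at h1
        exact one_ne_zero h1
      rw [hyc c]
      rw [eq_div_iff h2]
      linear_combination (-ver m x c) * h1)
  have hQ : ∀ t : Fin (N * (2 * N + 1)), (∑ i, C (c (t, i)) * q i).IsHomogeneous 2 :=
    fun t => fam_hom hq2 _
  have hpf : powerForm D (fun t : Fin (N * (2 * N + 1)) => ∑ i, C (c (t, i)) * q i) =
      hyp q D c := rfl
  refine ⟨fun t => ∑ i, C (c (t, i)) * q i, hQ, ?_, hm, hd1, ?_, power_form hQ, ?_, ?_, ?_⟩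
  · intro y hy
    rw [hpf]
    obtain ⟨j, hj⟩ := hc1 K (RingHom.id K) y hy
    rw [map_id] at hj
    exact ⟨j, hj⟩
  · intro p hp
    obtain ⟨e, -, he⟩ := hS p hp
    exact ⟨e, he⟩
  · intro L _ _ x hx
    rw [hpf]
    have h1 := hyp_vanish (algebraMap K L) q D c (ver m x) fun i => by
      rw [eval_map]
      exact hqv L x (fun k => hx _ (hT k.2)) i
    rw [eval_map] at h1
    exact h1
  · intro L _ _ w y hw hy
    rcases hc2 L w y hw hy.ne hy.gen hy.dim (by
      rw [← hpf]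
      exact hy.mem ⟨_, rfl⟩) with h | h
    · right
      obtain ⟨-, x, a, b, hxa, hyb, hyc, hFx⟩ := hqr L y hy.ne h
      refine ⟨x, y b, ?_, hyb, hS2 L x hFx, funext fun c => hyc c⟩
      intro h2
      rw [h2] at hxa
      exact zero_ne_one hxa
    · exact Or.inl h
  · intro E _ _ _ y hy0 hy
    rw [hpf] at hy
    rcases hc3 E y hy0 hy with h | h
    · exact Or.inl h
    · right
      obtain ⟨-, x, a, b, hxa, hyb, hyc, hFx⟩ := hqr E y hy0 h
      refine ⟨x, y b, ?_, hyb, hS2 E x hFx, funext fun c => hyc c⟩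
      intro h2
      rw [h2] at hxa
      exact zero_ne_one hxa

theorem t_geok : ∃ D₁ : ℕ → ℕ, GeoK D₁ :=
  geo_k (Pool.Agent.N254.SQ.t_alg (Pool.Agent.N254.SQ.t_hblk Pool.Agent.N254.SQ.t_hineq)
    Pool.Agent.N254.SQ.t_hform) (t_gt t_gta)

end Pool.Agent.L5helper62.SK
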