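import Pool.Agent.L5helper62.SK.Pts

/-!
Pseudo-geometric hyperbolicity of the Veronese image and of the subvarieties of the hypersurface.
-/

set_option autoImplicit false

namespace Pool.Agent.L5helper62.SK

open MvPolynomial FF
open Pool.Agent.N254.SQ (Mon ver ver_near ver_smul ver_prop ver_ne_zero reduce ptd_scale ptd_xscale
  ptd_exists ptd_ver ptd_prop ptd_uniq t_num)
open Pool.Agent.W603.LV (canDeg hgt Ge)
open Pool.Agent.W603.PV (pht pord)
open Pool.Agent.W602.GT (SubVar GeneralType VarPts IsForm val coords)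
open Pool.Agent.W602.RG (HasValue PseudoGeomHyp PointedMaps)
open scoped LinearAlgebra.Projectivization

section pre

variable {k : Type} [Field k] {n N d : ℕ} {m : Fin (N + 1) → Fin (n + 1) → ℕ}

/-- all forms vanishing at the point `y` with coordinates in a field extension -/
def Eqs (k : Type) [Field k] {n : ℕ} {L : Type} [Field L] [Algebra k L] (y : Fin (n + 1) → L) :
    Set (MvPolynomial (Fin (n + 1)) k) := {p | IsForm p ∧ val y p = 0}

/-- the ratios of the Veronese coordinates generate the same field -/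
theorem coords_ver (hm : Mon n N d m)
    (hd : 1 ≤ d) {L : Type} [Field L] [Algebra k L] (x : Fin (n + 1) → L) (hx : x ≠ 0) (c : L)
    (hc : c ≠ 0) : coords k (c • ver m x) = coords k x := by
  obtain ⟨a, ha⟩ : ∃ a, x a ≠ 0 := by
    by_contra hcon
    push Not at hcon
    exact hx (funext hcon)
  apply le_antisymm
  · apply IntermediateField.adjoin_le_iff.2
    rintro _ ⟨i, j, hj, rfl⟩
    -- monomials divided by the power of one coordinate
    have key : ∀ b, ver m x b / x a ^ d ∈ coords k x := by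
      intro b
      have h1 : ver m x b / x a ^ d = ∏ s, (x s / x a) ^ m b s := by
        simp only [div_pow, Finset.prod_div_distrib]
        rw [Finset.prod_pow_eq_pow_sum, hm.deg]
        rfl
      rw [h1]
      have h2 : ∀ s, x s / x a ∈ coords k x := fun s =>
        IntermediateField.subset_adjoin k {z | ∃ i j, x j ≠ 0 ∧ z = x i / x j} ⟨s, a, ha, rfl⟩
      exact prod_mem fun s _ => pow_mem (h2 s) _
    have hxa : x a ^ d ≠ 0 := pow_ne_zero _ ha
    have h2 : (c • ver m x) i / (c • ver m x) j = (ver m x i / x a ^ d) / (ver m x j / x a ^ d) := by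
      rw [Pi.smul_apply, Pi.smul_apply, smul_eq_mul, smul_eq_mul, mul_div_mul_left _ _ hc,
        div_div_div_cancel_right₀ hxa]
    rw [h2]
    exact div_mem (key i) (key j)
  · apply IntermediateField.adjoin_le_iff.2
    rintro _ ⟨i, j, hj, rfl⟩
    obtain ⟨b, hb⟩ := ver_near (Ω := L) hm hd j i
    obtain ⟨b', hb'⟩ := ver_near (Ω := L) hm hd j j
    have h1 : x i / x j = (c • ver m x) b / (c • ver m x) b' := by
      rw [Pi.smul_apply, Pi.smul_apply, smul_eq_mul, smul_eq_mul, mul_div_mul_left _ _ hc, hb, hb',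
        mul_div_mul_left _ _ (pow_ne_zero _ hj)]
    rw [h1]
    apply IntermediateField.subset_adjoin
    refine ⟨b, b', ?_, rfl⟩
    rw [Pi.smul_apply, smul_eq_mul, hb']
    exact mul_ne_zero hc (mul_ne_zero (pow_ne_zero _ hj) hj)

end pre

variable {k : Type} [Field k] [IsAlgClosed k] [CharZero k]

section

variable {n N d : ℕ} {m : Fin (N + 1) → Fin (n + 1) → ℕ}

/-- the Veronese map on projective points -/
theorem phi (hm : Mon n N d m) (hd : 1 ≤ d) (E : Type) [Field E] :
    ∃ Φ : ℙ E (Fin (n + 1) → E) → ℙ E (Fin (N + 1) → E), Function.Injective Φ ∧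
      ∀ (f : Fin (n + 1) → E) (hf : f ≠ 0), Φ (Projectivization.mk E f hf) =
        Projectivization.mk E (ver m f) (ver_ne_zero hm hd hf) := by
  refine ⟨fun φ => Projectivization.mk E (ver m φ.rep) (ver_ne_zero hm hd φ.rep_nonzero),
    ?_, ?_⟩
  · intro φ ψ h
    have h : Projectivization.mk E (ver m φ.rep) (ver_ne_zero hm hd φ.rep_nonzero) =
      Projectivization.mk E (ver m ψ.rep) (ver_ne_zero hm hd ψ.rep_nonzero) := h
    rw [Projectivization.mk_eq_mk_iff'] at h
    obtain ⟨a, ha⟩ := h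
    obtain ⟨c', hc'⟩ := ver_prop hm hd φ.rep_nonzero ha.symm
    rw [← φ.mk_rep, ← ψ.mk_rep, Projectivization.mk_eq_mk_iff']
    exact ⟨c', hc'.symm⟩
  · intro f hf
    change Projectivization.mk E (ver m (Projectivization.mk E f hf).rep) _ = _
    obtain ⟨a, ha⟩ := Projectivization.exists_smul_eq_mk_rep E f hf
    rw [Projectivization.mk_eq_mk_iff']
    refine ⟨(a : E) ^ d, ?_⟩
    rw [← ha, Units.smul_def, ver_smul hm]

theorem hyp_ver (hm : Mon n N d m) (hd : 1 ≤ d) {L : Type} [Field L] [Algebra k L]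
    {x : Fin (n + 1) → L} {c : L} (hc : c ≠ 0) :
    PseudoGeomHyp k (c • ver m x) ↔ PseudoGeomHyp k x := by
  constructor
  · rintro ⟨G, hG, hGy, h⟩
    have hpull : ∀ H : MvPolynomial (Fin (N + 1)) k, IsForm H → IsForm (pull m H) := by
      rintro H ⟨e, he⟩
      exact ⟨_, pull_hom hm he⟩
    refine ⟨pull m G, hpull G hG, ?_, ?_⟩
    · change aeval x (pull m G) ≠ 0
      rw [aeval_pull]
      intro h0
      exact hGy ((aeval_zero_of hG hc _).2 h0)
    · intro E _ _ _ P z hz hzG
      obtain ⟨Φ, hΦi, hΦ⟩ := phi hm hd E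
      have hz' : ver m z ∈ VarPts k (c • ver m x) := by
        refine ⟨ver_ne_zero hm hd hz.1, ?_⟩
        intro H hH hH0
        have h1 : aeval x (pull m H) = 0 := by
          rw [aeval_pull]
          exact (aeval_zero_of hH hc _).1 hH0
        have h2 : aeval z (pull m H) = 0 := hz.2 (pull m H) (hpull H hH) h1
        rw [aeval_pull] at h2
        exact h2
      have hT := h E P (ver m z) hz' (by
        change aeval (ver m z) G ≠ 0
        rw [← aeval_pull]
        exact hzG)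
      refine (hT.preimage hΦi.injOn).subset ?_
      rintro φ ⟨f, hf, hfS, hv, rfl⟩
      refine ⟨ver m f, ver_ne_zero hm hd hf, ?_, ptd_ver hm hd hz.1 hf hv, hΦ f hf⟩
      intro H hH hH0
      have h1 : aeval x (pull m H) = 0 := by
        rw [aeval_pull]
        exact (aeval_zero_of hH hc _).1 hH0
      have h2 : aeval f (pull m H) = 0 := hfS (pull m H) (hpull H hH) h1
      rw [aeval_pull] at h2
      exact h2
  · rintro ⟨G, hG, hGy, h⟩
    obtain ⟨e, he⟩ := hG
    obtain ⟨G', hG', hGp⟩ := t_versurj hm e (G ^ d) (by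
      have := he.pow d
      rwa [mul_comm] at this)
    have hGp' : pull m G' = G ^ d := hGp
    have hS : ∀ p ∈ Eqs k x, IsForm p := fun p hp => hp.1
    refine ⟨G', ⟨e, hG'⟩, ?_, ?_⟩
    · intro h0
      have h1 := (aeval_zero_of ⟨e, hG'⟩ hc (ver m x)).1 h0
      rw [← aeval_pull, hGp', map_pow] at h1
      exact hGy (eq_zero_of_pow_eq_zero h1)
    · intro E _ _ _ P z hz hzG
      obtain ⟨g, b, hg0, hb, hgS, hzg⟩ := ver_closed hm hd hS hz.1 (fun H hH hHS =>
        hz.2 H hH ((aeval_zero_of hH hc _).2 (hHS L x (fun p hp => hp.2))))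
      have hg' : g ∈ VarPts k x := ⟨hg0, fun H hH hH0 => hgS H ⟨hH, hH0⟩⟩
      have hgG : Pool.Agent.W602.GT.val g G ≠ 0 := by
        intro h0
        have h1 : aeval g G = 0 := h0
        apply hzG
        change aeval z G' = 0
        rw [hzg, aeval_zero_of ⟨e, hG'⟩ hb, ← aeval_pull, hGp', map_pow, h1, zero_pow (by omega)]
      have hT := h E P g hg' hgG
      obtain ⟨Φ, hΦi, hΦ⟩ := phi hm hd E
      refine (hT.image Φ).subset ?_
      rintro φ ⟨f, hf, hfS, hv, rfl⟩
      obtain ⟨f', c', hf', hc', hf'S, hff⟩ := ver_closed hm hd hS hf (fun H hH hHS =>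
        hfS H hH ((aeval_zero_of hH hc _).2 (hHS L x (fun p hp => hp.2))))
      refine ⟨Projectivization.mk E f' hf', ⟨f', hf', fun H hH hH0 => hf'S H ⟨hH, hH0⟩, ?_, rfl⟩,
        ?_⟩
      · have h4 := ptd_scale hf hv (inv_ne_zero hc')
        rw [hff, smul_smul, inv_mul_cancel₀ hc', one_smul] at h4
        obtain ⟨u, hu, huv⟩ := ptd_exists P hf'
        have h5 := ptd_ver hm hd hu hf' huv
        obtain ⟨a, ha1⟩ := ptd_prop hz.1 (ptd_uniq (ver_ne_zero hm hd hf') h4 h5)
        obtain ⟨s, hs⟩ := ver_prop hm hd (w := u) (x := g) (c := a * b) hu (by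
          rw [ha1, hzg, smul_smul])
        have hs0 : s ≠ 0 := by
          intro h0
          rw [h0, zero_smul] at hs
          exact hu hs
        have h6 := ptd_xscale huv s⁻¹
        rw [hs, smul_smul, inv_mul_cancel₀ hs0, one_smul] at h6
        exact h6
      · rw [hΦ, Projectivization.mk_eq_mk_iff']
        refine ⟨c'⁻¹, ?_⟩
        rw [hff, smul_smul, inv_mul_cancel₀ hc', one_smul]

variable {S : Set (MvPolynomial (Fin (n + 1)) k)} {A : MvPolynomial (Fin (N + 1)) k}

/-- the subvarieties of the hypersurface -/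
theorem good_hyp (hg : GoodK n N d m S A) {L : Type} [Field L]
    [Algebra k L] {w : ℕ} {y : Fin (N + 1) → L} (hw : 1 ≤ w)
    (hy : SubVarOf {A} L w y) :
    (GeneralType k L w ∧ PseudoGeomHyp k y) ∨ ∃ (x : Fin (n + 1) → L) (c : L), x ≠ 0 ∧ c ≠ 0 ∧
      (∀ p ∈ S, aeval x p = 0) ∧ y = c • ver m x := by
  by_cases hcon : ∃ (x : Fin (n + 1) → L) (c : L), x ≠ 0 ∧ c ≠ 0 ∧
      (∀ p ∈ S, aeval x p = 0) ∧ y = c • ver m x
  · exact Or.inr hcon
  left
  refine ⟨(hg.special L w y hw hy).resolve_right hcon, ?_⟩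
  have h1 : ∃ G : MvPolynomial (Fin (N + 1)) k, IsForm G ∧
      (∀ (L : Type) [Field L] [Algebra k L] (z : Fin (n + 1) → L), (∀ p ∈ S, aeval z p = 0) →
        aeval (ver m z) G = 0) ∧ aeval y G ≠ 0 := by
    by_contra h2
    apply hcon
    refine ver_closed hg.mon hg.deg hg.homS hy.ne fun H hH hHS => ?_
    by_contra h3
    exact h2 ⟨H, hH, hHS, h3⟩
  obtain ⟨G, hG, hGS, hGy⟩ := h1
  refine ⟨G, hG, hGy, ?_⟩
  intro E _ _ _ P z hz hzG
  refine (off_finite hg hz.1 hG hGS hzG P).subset ?_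
  rintro φ ⟨f, hf, hfS, hv, rfl⟩
  refine ⟨f, hf, ?_, hv, rfl⟩
  intro p hp
  rw [Set.mem_singleton_iff] at hp
  rw [hp]
  exact hfS A hg.homA (hy.mem ⟨A, rfl⟩)

theorem hyp_ver_one (hm : Mon n N d m) (hd : 1 ≤ d) {L : Type} [Field L] [Algebra k L]
    {x : Fin (n + 1) → L} : PseudoGeomHyp k (ver m x) ↔ PseudoGeomHyp k x := by
  have h := hyp_ver (k := k) hm hd (x := x) (one_ne_zero : (1 : L) ≠ 0)
  rwa [one_smul] at h

theorem sub_of_ver (hg : GoodK n N d m S A) {L : Type} [Field L] [Algebra k L] {w : ℕ}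
    {y : Fin (N + 1) → L} {x : Fin (n + 1) → L} {c : L}
    (hy : SubVarOf {A} L w y)
    (hx : x ≠ 0) (hc : c ≠ 0) (hxS : ∀ p ∈ S, aeval x p = 0) (hyx : y = c • ver m x) :
    SubVarOf S L w x :=
  ⟨hx, fun p => hxS _ p.2, by
    rw [← coords_ver hg.mon hg.deg x hx c hc, ← hyx, hy.gen], hy.dim⟩

theorem sub_ver (hg : GoodK n N d m S A) {L : Type} [Field L] [Algebra k L] {w : ℕ}
    {y : Fin (n + 1) → L} (hy : SubVarOf S L w y) : SubVarOf {A} L w (ver m y) := by
  refine ⟨ver_ne_zero hg.mon hg.deg hy.ne, fun p => ?_, ?_, hy.dim⟩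
  · obtain ⟨p, hp⟩ := p
    rw [Set.mem_singleton_iff] at hp
    subst hp
    exact hg.sub L y fun p hp => hy.mem ⟨p, hp⟩
  · have h1 := coords_ver (k := k) hg.mon hg.deg y hy.ne (1 : L) one_ne_zero
    rw [one_smul] at h1
    rw [h1, hy.gen]

theorem special_iff (hg : GoodK n N d m S A) {G : MvPolynomial (Fin (N + 1)) k} (hG : IsForm G) :
    OnSpecial {A} G ↔ OnSpecial S (pull m G) := by
  constructor
  · intro h L _ _ w y hw hy
    rcases h L w (ver m y) hw (sub_ver hg hy) with h1 | h1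
    · exact Or.inl h1
    · right
      change aeval y (pull m G) = 0
      rw [aeval_pull]
      exact h1
  · intro h L _ _ w y hw hy
    rcases hg.special L w y hw hy with h1 | ⟨x, c, hx, hc, hxS, hyx⟩
    · exact Or.inl h1
    · rcases h L w x hw (sub_of_ver hg hy hx hc hxS hyx) with h1 | h1
      · exact Or.inl h1
      · right
        have h1 : aeval x (pull m G) = 0 := h1
        rw [aeval_pull] at h1
        change aeval y G = 0
        rw [hyx, aeval_zero_of hG hc]
        exact h1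

theorem nonHyp_iff (hg : GoodK n N d m S A) {G : MvPolynomial (Fin (N + 1)) k} (hG : IsForm G) :
    OnNonHyp {A} G ↔ OnNonHyp S (pull m G) := by
  constructor
  · intro h L _ _ w y hw hy
    rcases h L w (ver m y) hw (sub_ver hg hy) with h1 | h1
    · exact Or.inl ((hyp_ver_one hg.mon hg.deg).1 h1)
    · right
      change aeval y (pull m G) = 0
      rw [aeval_pull]
      exact h1
  · intro h L _ _ w y hw hy
    rcases good_hyp hg hw hy with h1 | ⟨x, c, hx, hc, hxS, hyx⟩
    · exact Or.inl h1.2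
    · rcases h L w x hw (sub_of_ver hg hy hx hc hxS hyx) with h1 | h1
      · left
        rw [hyx]
        exact (hyp_ver hg.mon hg.deg hc).2 h1
      · right
        have h1 : aeval x (pull m G) = 0 := h1
        rw [aeval_pull] at h1
        change aeval y G = 0
        rw [hyx, aeval_zero_of hG hc]
        exact h1

theorem lang_iff (hg : GoodK n N d m S A) : LangFor {A} ↔ LangFor S := by
  constructor
  · intro h L _ _ w y hw hy
    rw [h L w (ver m y) hw (sub_ver hg hy)]
    exact hyp_ver_one hg.mon hg.deg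
  · intro h L _ _ w y hw hy
    rcases good_hyp hg hw hy with h1 | ⟨x, c, hx, hc, hxS, hyx⟩
    · exact ⟨fun _ => h1.2, fun _ => h1.1⟩
    · rw [h L w x hw (sub_of_ver hg hy hx hc hxS hyx), hyx]
      exact (hyp_ver hg.mon hg.deg hc).symm

end

section

variable {n : ℕ}

theorem nonHyp_restr (S : Set (MvPolynomial (Fin (n + 1)) k)) (L : Type) [Field L]
    [Algebra k L] (y : Fin (n + 1) → L) (G H : MvPolynomial (Fin (n + 1)) k)
    (hF : ∀ F, IsForm F → val y F = 0 → OnNonHyp S (F * H)) (hG : OnNonHyp (Eqs k y) G) :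
    OnNonHyp S (G * H) := by
  intro L' _ _ w' y' hw' hy'
  by_cases hgt : PseudoGeomHyp k y'
  · exact Or.inl hgt
  right
  change aeval y' (G * H) = 0
  rw [map_mul]
  by_cases hH0 : aeval y' H = 0
  · rw [hH0, mul_zero]
  have hG' : aeval y' G = 0 := by
    refine (hG L' w' y' hw' ⟨hy'.ne, fun p => ?_, hy'.gen, hy'.dim⟩).resolve_left hgt
    have h1 : aeval y' (p.1 * H) = 0 := (hF p.1 p.2.1 p.2.2 L' w' y' hw' hy').resolve_left hgt
    rw [map_mul, mul_eq_zero] at h1
    exact h1.resolve_right hH0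
  rw [hG', zero_mul]

theorem special_restr (S : Set (MvPolynomial (Fin (n + 1)) k)) (L : Type) [Field L]
    [Algebra k L] (y : Fin (n + 1) → L) (G H : MvPolynomial (Fin (n + 1)) k)
    (hF : ∀ F, IsForm F → val y F = 0 → OnSpecial S (F * H)) (hG : OnSpecial (Eqs k y) G) :
    OnSpecial S (G * H) := by
  intro L' _ _ w' y' hw' hy'
  by_cases hgt : GeneralType k L' w'
  · exact Or.inl hgt
  right
  change aeval y' (G * H) = 0
  rw [map_mul]
  by_cases hH0 : aeval y' H = 0
  · rw [hH0, mul_zero]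
  have hG' : aeval y' G = 0 := by
    refine (hG L' w' y' hw' ⟨hy'.ne, fun p => ?_, hy'.gen, hy'.dim⟩).resolve_left hgt
    have h1 : aeval y' (p.1 * H) = 0 := (hF p.1 p.2.1 p.2.2 L' w' y' hw' hy').resolve_left hgt
    rw [map_mul, mul_eq_zero] at h1
    exact h1.resolve_right hH0
  rw [hG', zero_mul]

theorem sub_mono {S T : Set (MvPolynomial (Fin (n + 1)) k)}
    (h : ∀ (L : Type) [Field L] [Algebra k L] (x : Fin (n + 1) → L),
      (∀ p ∈ T, aeval x p = 0) → ∀ p ∈ S, aeval x p = 0) {L : Type} [Field L] [Algebra k L]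
    {w : ℕ} {y : Fin (n + 1) → L} (hy : SubVarOf T L w y) : SubVarOf S L w y :=
  ⟨hy.ne, fun p => h L y (fun q hq => hy.mem ⟨q, hq⟩) p.1 p.2, hy.gen, hy.dim⟩

/-- a subvariety which is not in the exceptional set of a pseudo-geometrically hyperbolic variety -/
theorem hyp_sub {K : Type} [Field K] [Algebra k K] {y : Fin (n + 1) → K}
    {L : Type} [Field L] [Algebra k L] {z : Fin (n + 1) → L} (h : ∀ p ∈ Eqs k y, aeval z p = 0)
    {G : MvPolynomial (Fin (n + 1)) k} (hG : IsForm G) (hGz : aeval z G ≠ 0)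
    (hfin : ∀ (E : Type) [Field E] [Algebra k E] [IsFF k E] (c : Place k E),
      ∀ x ∈ VarPts k y, val x G ≠ 0 → (PointedMaps y c x).Finite) :
    PseudoGeomHyp k z := by
  refine ⟨G, hG, hGz, fun E _ _ _ c x hx hxG => ?_⟩
  refine (hfin E c x ⟨hx.1, fun H hH hH0 => hx.2 H hH (h H ⟨hH, hH0⟩)⟩ hxG).subset ?_
  rintro φ ⟨f, hf, hfS, hv, rfl⟩
  exact ⟨f, hf, fun H hH hH0 => hfS H hH (h H ⟨hH, hH0⟩), hv, rfl⟩

/-- pseudo-geometrically hyperbolic: the closed subvarieties which are not are not dense -/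
theorem hyp_iff {L : Type} [Field L] [Algebra k L] {w : ℕ} {y : Fin (n + 1) → L} (hw : 1 ≤ w)
    (hy : SubVarOf (∅ : Set (MvPolynomial (Fin (n + 1)) k)) L w y) : PseudoGeomHyp k y ↔
      ∃ G : MvPolynomial (Fin (n + 1)) k, IsForm G ∧ val y G ≠ 0 ∧ OnNonHyp (Eqs k y) G := by
  constructor
  · rintro ⟨G, hG, hGy, h⟩
    refine ⟨G, hG, hGy, fun L' _ _ w' y' hw' hy' => ?_⟩
    by_cases h0 : val y' G = 0
    · exact Or.inr h0
    · exact Or.inl (hyp_sub (fun p hp => hy'.mem ⟨p, hp⟩) hG h0 h)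
  · rintro ⟨G, hG, hGy, h⟩
    exact (h L w y hw ⟨hy.ne, fun p => p.2.2, hy.gen, hy.dim⟩).resolve_right hGy

end

end Pool.Agent.L5helper62.SK
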