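import Pool.Agent.L5helper62.SK.Geo
import Pool.Agent.L5helper62.SK.VerSurj
import Pool.Agent.N254.SQ.PtdR
import Pool.Agent.N254.SQ.Bend
import Pool.Agent.N254.SQ.Ver

/-!
Pointed maps to a hypersurface through a Veronese image, at the points outside of this image.
-/

set_option autoImplicit false

namespace Pool.Agent.L5helper62.SK

open MvPolynomial FF
open Pool.Agent.N254.SQ (Mon ver t_ver ptd_near ptd_ne ver_smul)
open Pool.Agent.W602.GT (IsForm val)
open Pool.Agent.W603.LV (canDeg hgt Ge)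
open Pool.Agent.W603.PV (pht pord)
open Pool.Agent.W602.RG (HasValue)
open scoped LinearAlgebra.Projectivization

section scale

variable {k : Type} [Field k]

theorem aeval_scale {Ω : Type} [Field Ω] [Algebra k Ω] {M e : ℕ}
    {G : MvPolynomial (Fin (M + 1)) k} (hG : G.IsHomogeneous e) (c : Ω) (x : Fin (M + 1) → Ω) :
    aeval (c • x) G = c ^ e * aeval x G :=
  Pool.Agent.N254.SQ.eval₂_scale (algebraMap k Ω) hG c x

theorem eval_scale {M e : ℕ} {G : MvPolynomial (Fin (M + 1)) k} (hG : G.IsHomogeneous e) (c : k)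
    (x : Fin (M + 1) → k) : eval (c • x) G = c ^ e * eval x G :=
  Pool.Agent.N254.SQ.eval₂_scale (RingHom.id k) hG c x

theorem aeval_zero_of {Ω : Type} [Field Ω] [Algebra k Ω] {M : ℕ}
    {G : MvPolynomial (Fin (M + 1)) k} (hG : IsForm G) {c : Ω} (hc : c ≠ 0) (x : Fin (M + 1) → Ω) :
    aeval (c • x) G = 0 ↔ aeval x G = 0 := by
  obtain ⟨e, he⟩ := hG
  rw [aeval_scale he, mul_eq_zero]
  constructor
  · rintro (h | h)
    · exact absurd h (pow_ne_zero _ hc)
    · exact h
  · exact Or.inr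

/-- the pull-back of a polynomial by the Veronese map -/
noncomputable def pull {n N : ℕ} (m : Fin (N + 1) → Fin (n + 1) → ℕ)
    (G : MvPolynomial (Fin (N + 1)) k) : MvPolynomial (Fin (n + 1)) k :=
  aeval (fun a => ∏ j, (X j : MvPolynomial (Fin (n + 1)) k) ^ m a j) G

variable {n N d : ℕ} {m : Fin (N + 1) → Fin (n + 1) → ℕ}

theorem aeval_pull {Ω : Type} [Field Ω] [Algebra k Ω] (x : Fin (n + 1) → Ω)
    (G : MvPolynomial (Fin (N + 1)) k) : aeval x (pull m G) = aeval (ver m x) G := by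
  change ((aeval x).comp (aeval fun a => ∏ j, (X j : MvPolynomial (Fin (n + 1)) k) ^ m a j)) G = _
  rw [comp_aeval]
  congr 2
  funext a
  rw [map_prod]
  unfold ver
  apply Finset.prod_congr rfl
  intro j _
  rw [map_pow, aeval_X]

theorem pull_hom (hm : Mon n N d m) {G : MvPolynomial (Fin (N + 1)) k} {e : ℕ}
    (hG : G.IsHomogeneous e) : (pull m G).IsHomogeneous (d * e) := by
  refine hG.aeval _ fun a => ?_
  have h1 : (∏ j, (X j : MvPolynomial (Fin (n + 1)) k) ^ m a j).IsHomogeneous (∑ j, 1 * m a j) :=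
    IsHomogeneous.prod _ _ _ fun j _ => (isHomogeneous_X k j).pow _
  simp only [one_mul] at h1
  rwa [hm.deg] at h1

end scale

variable {k : Type} [Field k] [IsAlgClosed k] [CharZero k]

/-- height zero -/
theorem const_k {E : Type} [Field E] [Algebra k E] [IsFF k E] {n : ℕ} {y : Fin (n + 1) → E}
    (hy : y ≠ 0) (h : pht k y ≤ 0) :
    ∃ (c : E) (z : Fin (n + 1) → k), y = fun j => c * algebraMap k E (z j) := by
  obtain ⟨l, hl⟩ := ptd_ne hy
  have h1 : ∀ j, ∃ z : k, y j / y l = algebraMap k E z := by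
    intro j
    by_cases hj : y j = 0
    · exact ⟨0, by rw [hj, zero_div, map_zero]⟩
    · exact Pool.Agent.W603.LV.const_of_hgt
        ((Pool.Agent.W603.CX.hgt_le_pht (k := k) y hj hl).trans h)
  choose z hz using h1
  refine ⟨y l, z, funext fun j => ?_⟩
  rw [← hz]
  field_simp

/-- a form vanishing along a curve vanishes at its points -/
theorem form_value {E : Type} [Field E] [Algebra k E] {n : ℕ} {c : Place k E}
    {x : Fin (n + 1) → k} (hx : x ≠ 0) {f : Fin (n + 1) → E} (hf : f ≠ 0) (hv : HasValue c x f)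
    {H : MvPolynomial (Fin (n + 1)) k} (hH : IsForm H) (h0 : aeval f H = 0) : eval x H = 0 := by
  obtain ⟨a, ha, hg⟩ := ptd_near hx hf hv
  have h1 : ∀ j, Ge c 0 ((a • f) j) := by
    intro j
    have := ((hg j).mono (by norm_num : (0 : ℤ) ≤ 1)).add (Ge.const (P := c) (x j))
    rwa [sub_add_cancel] at this
  have h2 := Pool.Agent.W603.LV.red_mvaeval c h1 hg H
  rw [(aeval_zero_of hH ha f).2 h0, zero_sub, ← map_neg] at h2
  exact neg_eq_zero.1 (Pool.Agent.W603.LV.const_zero c h2)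

/-- bend and break: the rational curve passes through the given point -/
theorem bend_pt {n : ℕ} {S : Set (MvPolynomial (Fin (n + 1)) k)} (hS : ∀ p ∈ S, IsForm p)
    {E : Type} [Field E] [Algebra k E] [IsFF k E] (c : Place k E) (x : Fin (n + 1) → k) (B : ℤ)
    (hx : x ≠ 0) (hinf : {φ : ℙ E (Fin (n + 1) → E) | ∃ (f : Fin (n + 1) → E) (hf : f ≠ 0),
        (∀ p ∈ S, aeval f p = 0) ∧ HasValue c x f ∧ pht k f ≤ B ∧
        φ = Projectivization.mk E f hf}.Infinite) :
      ∃ y : Fin (n + 1) → RatFunc k, y ≠ 0 ∧ (∀ p ∈ S, aeval y p = 0) ∧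
        (¬ ∃ (c : RatFunc k) (z : Fin (n + 1) → k),
          y = fun j => c * algebraMap k (RatFunc k) (z j)) ∧
        ∀ H : MvPolynomial (Fin (n + 1)) k, IsForm H → aeval y H = 0 → eval x H = 0 := by
  classical
  obtain ⟨j0, hj0⟩ := Function.ne_iff.1 hx
  have hj0 : x j0 ≠ 0 := hj0
  set M : Set (Fin (n + 1) → E) := {f | f j0 = 1 ∧ (∀ p ∈ S, aeval f p = 0) ∧ HasValue c x f ∧
    ∀ j, hgt k (f j) ≤ max B 0} with hM
  have hMinf : M.Infinite := by
    intro hMfin
    obtain ⟨φ0, -⟩ := hinf.nonempty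
    let g : (Fin (n + 1) → E) → ℙ E (Fin (n + 1) → E) := fun f =>
      if h : f ≠ 0 then Projectivization.mk E f h else φ0
    refine hinf ((hMfin.image g).subset ?_)
    rintro φ ⟨f, hf, hmap, hval, hht, rfl⟩
    have hfne : ∃ j, f j ≠ 0 := Function.ne_iff.1 hf
    have hfj0 := Pool.Agent.W273.RG.FNW.hv_ne hfne hval hj0
    have hc0 : (f j0)⁻¹ ≠ 0 := inv_ne_zero hfj0
    have hf' : (fun j => (f j0)⁻¹ * f j) ≠ 0 := by
      intro h0
      have := congrFun h0 j0
      simp only [Pi.zero_apply] at this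
      exact (mul_ne_zero hc0 hfj0) this
    refine ⟨fun j => (f j0)⁻¹ * f j, ⟨inv_mul_cancel₀ hfj0, ?_,
      Pool.Agent.W273.RG.FNW.hv_scale hfne hval hc0, ?_⟩, ?_⟩
    · intro p hp
      exact (aeval_zero_of (hS p hp) hc0 f).2 (hmap p hp)
    · intro j
      by_cases h0 : f j = 0
      · have h7 : hgt k ((f j0)⁻¹ * f j) = 0 := by
          rw [h0, mul_zero]
          exact Pool.Agent.W603.PV.hgt_algebraic (k := k) (K := E) (f := 0) isAlgebraic_zero
        simp only [h7]
        exact le_max_right _ _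
      · have h6 := Pool.Agent.W603.CX.hgt_le_pht (k := k) f (j := j) (l := j0) h0 hfj0
        have e : (f j0)⁻¹ * f j = f j / f j0 := by rw [div_eq_mul_inv, mul_comm]
        simp only [e]
        exact (h6.trans hht).trans (le_max_left _ _)
    · change (if h : (fun j => (f j0)⁻¹ * f j) ≠ 0 then
        Projectivization.mk E (fun j => (f j0)⁻¹ * f j) h else φ0) = _
      rw [dif_pos hf', Projectivization.mk_eq_mk_iff']
      exact ⟨(f j0)⁻¹, by funext j; rfl⟩
  have hvalues : ∀ f ∈ M, ∀ j, f j = algebraMap k E (x j / x j0) ∨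
      0 < c.ord (f j - algebraMap k E (x j / x j0)) := by
    rintro f ⟨hf0, hmap, hval, hht⟩ j
    have hp := Pool.Agent.W273.RG.FNW.pord_zero hval hj0 hf0
    have hxj0 : algebraMap k E (x j0) ≠ 0 := (map_ne_zero _).2 hj0
    have e : algebraMap k E (x j0) * f j - algebraMap k E (x j) * f j0 =
        algebraMap k E (x j0) * (f j - algebraMap k E (x j / x j0)) := by
      rw [hf0, map_div₀]
      field_simp
    rcases hval j0 j with h3 | h3
    · left
      rw [e] at h3
      exact sub_eq_zero.1 ((mul_eq_zero.1 h3).resolve_left hxj0)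
    · by_cases h4 : f j - algebraMap k E (x j / x j0) = 0
      · left; exact sub_eq_zero.1 h4
      · right
        rw [e, c.ord_mul hxj0 h4, c.ord_const hj0, zero_add, hp] at h3
        exact h3
  let z : ℕ ↪ M := hMinf.natEmbedding M
  obtain ⟨g, ⟨j1, hj1⟩, hg1, hg2⟩ := Pool.Agent.TH152.BB.bb_val Pool.Agent.TH152.BB.bb_all c
    (fun m => (z m : Fin (n + 1) → E)) (fun j => x j / x j0) (max B 0)
    (fun a b hab => z.injective (Subtype.ext hab)) (fun m j => hvalues _ (z m).2 j)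
    (fun m j => (z m).2.2.2.2 j)
  have hg0 : g j0 = 1 := by
    have h1 := hg1 (X j0 - 1) (fun m => by
      rw [map_sub, aeval_X, map_one]; exact sub_eq_zero.2 (z m).2.1)
    rw [map_sub, aeval_X, map_one] at h1
    exact sub_eq_zero.1 h1
  refine ⟨g, ?_, fun p hp => hg1 p fun m => (z m).2.2.1 p hp, ?_, ?_⟩
  · intro h0
    rw [h0] at hg0
    exact zero_ne_one hg0
  · rintro ⟨r, w, hrw⟩
    apply hj1
    have h0 : r * algebraMap k (RatFunc k) (w j0) = 1 := by
      rw [← hg0, hrw]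
    have hw : algebraMap k (RatFunc k) (w j0) ≠ 0 := right_ne_zero_of_mul_eq_one h0
    have hr : r = algebraMap k (RatFunc k) (w j0)⁻¹ := by
      rw [map_inv₀]
      exact eq_inv_of_mul_eq_one_left h0
    refine ⟨(w j0)⁻¹ * w j1, ?_⟩
    rw [map_mul, ← hr, hrw]
  · rintro H ⟨e, he⟩ h0
    have h1 := hg2 H h0
    have h2 : (fun j => x j / x j0) = (x j0)⁻¹ • x := by
      funext j
      rw [Pi.smul_apply, smul_eq_mul, div_eq_mul_inv, mul_comm]
    rw [h2, eval_scale he] at h1
    exact (mul_eq_zero.1 h1).resolve_left (pow_ne_zero _ (inv_ne_zero hj0))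

section

variable {n N d : ℕ} {m : Fin (N + 1) → Fin (n + 1) → ℕ}

/-- the Veronese image of `V(S)` is closed -/
theorem ver_closed (hm : Mon n N d m) (hd : 1 ≤ d) {S : Set (MvPolynomial (Fin (n + 1)) k)}
    (hS : ∀ p ∈ S, IsForm p) {Ω : Type} [Field Ω] [Algebra k Ω] {f : Fin (N + 1) → Ω}
    (hf : f ≠ 0) (h : ∀ H : MvPolynomial (Fin (N + 1)) k, IsForm H →
      (∀ (L : Type) [Field L] [Algebra k L] (z : Fin (n + 1) → L), (∀ p ∈ S, aeval z p = 0) →
        aeval (ver m z) H = 0) → aeval f H = 0) :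
    ∃ (g : Fin (n + 1) → Ω) (c : Ω), g ≠ 0 ∧ c ≠ 0 ∧ (∀ p ∈ S, aeval g p = 0) ∧
      f = c • ver m g := by
  obtain ⟨ι, iι, q, hq, hq0, hq1⟩ := t_ver k n N d m hm hd Empty (fun e => e.elim)
    (fun e => e.elim) (fun e => e.elim) (fun e => e.elim)
  obtain ⟨-, g, a, b, hga, hfb, hfg, -⟩ := hq1 Ω f hf (fun i => h (q i) ⟨2, hq i⟩
    fun L _ _ z _ => hq0 L z (fun e => e.elim) i)
  have hfg' : f = f b • ver m g := by
    funext c
    rw [Pi.smul_apply, smul_eq_mul]
    exact hfg c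
  refine ⟨g, f b, fun h0 => ?_, hfb, ?_, hfg'⟩
  · rw [h0, Pi.zero_apply] at hga
    exact zero_ne_one hga
  · intro p hp
    obtain ⟨e, he⟩ := hS p hp
    obtain ⟨G, hG, hGp⟩ := t_versurj hm e (p ^ d) (by
      have := he.pow d
      rwa [mul_comm] at this)
    have hGp' : pull m G = p ^ d := hGp
    have h1 := h G ⟨e, hG⟩ (fun L _ _ z hz => by
      rw [← aeval_pull, hGp', map_pow, hz p hp, zero_pow (by omega)])
    rw [hfg', aeval_zero_of ⟨e, hG⟩ hfb, ← aeval_pull, hGp', map_pow] at h1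
    exact eq_zero_of_pow_eq_zero h1

variable {S : Set (MvPolynomial (Fin (n + 1)) k)} {A : MvPolynomial (Fin (N + 1)) k}

/-- outside of the Veronese image of `V(S)` there are only finitely many pointed maps -/
theorem off_finite (hg : GoodK n N d m S A) {z : Fin (N + 1) → k}
    (hz : z ≠ 0) {G : MvPolynomial (Fin (N + 1)) k} (hG : IsForm G)
    (hGS : ∀ (L : Type) [Field L] [Algebra k L] (x : Fin (n + 1) → L), (∀ p ∈ S, aeval x p = 0) →
      aeval (ver m x) G = 0) (hGz : eval z G ≠ 0) {E : Type} [Field E] [Algebra k E] [IsFF k E]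
    (c : Place k E) : (Maps {A} c z).Finite := by
  by_contra hinf
  have hinf2 : {φ : ℙ E (Fin (N + 1) → E) | ∃ (f : Fin (N + 1) → E) (hf : f ≠ 0),
      (∀ p ∈ ({A} : Set (MvPolynomial (Fin (N + 1)) k)), aeval f p = 0) ∧ HasValue c z f ∧
      pht k f ≤ max (canDeg k E) 0 ∧ φ = Projectivization.mk E f hf}.Infinite := by
    intro hfin
    apply hinf
    refine hfin.subset ?_
    rintro φ ⟨f, hf, hfA, hv, rfl⟩
    rcases hg.alg E f hf (hfA A rfl) with h3 | ⟨x, c', hx, hc', hxS, hfx⟩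
    · exact ⟨f, hf, hfA, hv, h3, rfl⟩
    · exfalso
      apply hGz
      refine form_value hz hf hv hG ?_
      rw [hfx, aeval_zero_of hG hc']
      exact hGS E x hxS
  obtain ⟨y, hy, hyA, hyn, hyz⟩ := bend_pt (by
    intro p hp
    rw [Set.mem_singleton_iff] at hp
    rw [hp]
    exact hg.homA) c z _ hz hinf2
  rcases hg.alg (RatFunc k) y hy (hyA A rfl) with h3 | ⟨x, c', hx, hc', hxS, hyx⟩
  · rw [Pool.Agent.Y216.canDeg_ratFunc] at h3
    exact hyn (const_k hy (h3.trans (by norm_num)))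
  · apply hGz
    refine hyz G hG ?_
    rw [hyx, aeval_zero_of hG hc']
    exact hGS _ x hxS

/-- the same, for the points which are not in the image -/
theorem pt_finite (hg : GoodK n N d m S A) {z : Fin (N + 1) → k}
    (hz : z ≠ 0) (hzS : ¬ ∃ (x : Fin (n + 1) → k) (c : k), x ≠ 0 ∧ c ≠ 0 ∧
      (∀ p ∈ S, aeval x p = 0) ∧ z = c • ver m x)
    {E : Type} [Field E] [Algebra k E] [IsFF k E] (c : Place k E) : (Maps {A} c z).Finite := by
  by_contra hinf
  apply hzS
  refine ver_closed hg.mon hg.deg hg.homS hz fun H hH hHS => ?_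
  by_contra hHz
  exact hinf (off_finite hg hz hH hHS hHz c)

end

end Pool.Agent.L5helper62.SK
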